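import Mathlib

namespace Pool.Agent.Results.MP_25dd1e_co.DoubleCase

open Finset

/-- `a 0, ..., a n` is acceptable for `b, c`. -/
def Adm (b c n : ℕ) (a : ℕ → ℕ) : Prop :=
  a 0 = 0 ∧ (∀ i < n, a i < a (i + 1)) ∧ ∀ i, i + b ≤ n → a (i + b) ≤ a i + c

/-- `a 0, ..., a n` hits `k`. -/
def Hits (k n : ℕ) (a : ℕ → ℕ) : Prop := ∃ i j, i < j ∧ j ≤ n ∧ a j = a i + k

/-- `N(b,c,k)`, with value `⊤` if no `n` works. -/
noncomputable def N (b c k : ℕ) : ℕ∞ :=
  ⨅ (n : ℕ) (_ : 0 < n ∧ ∀ a, Adm b c n a → Hits k n a), (n : ℕ∞)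

lemma mono {n : ℕ} {a : ℕ → ℕ} (h : ∀ i < n, a i < a (i + 1)) {i j : ℕ} (hij : i < j)
    (hj : j ≤ n) : a i < a j := by
  induction j, hij using Nat.le_induction with
  | base => exact h i (by omega)
  | succ j _ ih => exact (ih (by omega)).trans (h j (by omega))

lemma mono' {n : ℕ} {a : ℕ → ℕ} (h : ∀ i < n, a i < a (i + 1)) {i j : ℕ} (hij : i ≤ j)
    (hj : j ≤ n) : a i ≤ a j := by
  rcases hij.eq_or_lt with rfl | h'
  · rfl
  · exact (mono h h' hj).le

lemma gap {n k : ℕ} (hk : 0 < k) {a : ℕ → ℕ} (h : ∀ i < n, a i < a (i + 1)) (hn : ¬ Hits k n a)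
    {i : ℕ} (hi : i + k ≤ n) : a i + 2 * k ≤ a (i + k) := by
  by_contra hc
  obtain ⟨x, hx, y, hy, hxy, e⟩ := exists_ne_map_eq_of_card_lt_of_maps_to (s := range (k + 1))
    (t := range k) (by simp) (f := fun x => a (i + x) % k) fun x _ => by simpa using Nat.mod_lt _ hk
  simp only [mem_range] at hx hy
  wlog hlt : x < y generalizing x y
  · exact this y x hxy.symm e.symm hy hx (by omega)
  have h1 := mono h (show i + x < i + y by omega) (by omega)
  have h2 := mono' h (show i ≤ i + x by omega) (by omega)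
  have h3 := mono' h (show i + y ≤ i + k by omega) hi
  obtain ⟨m, hm⟩ := (Nat.modEq_iff_dvd' h1.le).1 e
  have : m = 1 := by
    rcases m with _ | _ | m
    · omega
    · rfl
    · have : k * (m + 1 + 1) = k * m + 2 * k := by ring
      omega
  subst this
  exact hn ⟨i + x, i + y, by omega, by omega, by omega⟩

lemma upper {b k : ℕ} (hb : 0 < b) (hk : 0 < k) (he : 2 * Nat.gcd b k ∣ k) (a : ℕ → ℕ)
    (h : Adm b (2 * b) (b + k - Nat.gcd b k) a) : Hits k (b + k - Nat.gcd b k) a := by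
  by_contra hn
  set g := Nat.gcd b k with hg
  have gb : g ∣ b := Nat.gcd_dvd_left b k
  have gk : g ∣ k := Nat.gcd_dvd_right b k
  have gk' : g ≤ k := Nat.le_of_dvd hk gk
  have gb' : g ≤ b := Nat.le_of_dvd hb gb
  let D : ℕ → ℤ := fun j => (a (b * j % (b + k)) : ℤ) - 2 * (b * j % (b + k) : ℕ)
  have step : ∀ j, D (j + 1) ≤ D j := by
    intro j
    have e : b * (j + 1) % (b + k) = (b * j % (b + k) + b) % (b + k) := by
      rw [mul_add, mul_one, Nat.mod_add_mod]
    have hd : g ∣ b * j % (b + k) := (Nat.dvd_mod_iff (dvd_add gb gk)).2 (gb.mul_right j)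
    have hl : b * j % (b + k) < b + k := Nat.mod_lt _ (by omega)
    simp only [D, e]
    generalize b * j % (b + k) = i at *
    rcases lt_or_ge i k with h1 | h1
    · have : g ≤ k - i := Nat.le_of_dvd (by omega) (Nat.dvd_sub gk hd)
      have h2 := h.2.2 i (by omega)
      rw [Nat.mod_eq_of_lt (by omega)]
      push_cast
      omega
    · have : g ≤ b + k - i := Nat.le_of_dvd (by omega) (Nat.dvd_sub (dvd_add gb gk) hd)
      obtain ⟨m, rfl⟩ : ∃ m, i = m + k := ⟨i - k, by omega⟩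
      have h2 := gap hk h.2.1 hn (i := m) (by omega)
      rw [show m + k + b = m + (b + k) by ring, Nat.add_mod_right, Nat.mod_eq_of_lt (by omega)]
      push_cast
      omega
  have anti : Antitone D := antitone_nat_of_succ_le step
  obtain ⟨h', hh⟩ := he
  have hgM : Nat.gcd b (b + k) = g := by rw [Nat.gcd_self_add_right]
  obtain ⟨m, -, hm⟩ := Nat.exists_mul_mod_eq_gcd (n := b) (k := b + k) (by omega)
  have hpos : 0 < g * h' := by
    have : k = 2 * (g * h') := by rw [hh]; ring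
    omega
  have hk2 : k = 2 * (g * h') := by rw [hh]; ring
  have e1 : b * (m * h') % (b + k) = g * h' := by
    rw [← mul_assoc, Nat.mul_mod, hm, hgM, Nat.mul_mod_mod, Nat.mod_eq_of_lt (by omega)]
  have h1 := anti (Nat.zero_le (m * h'))
  have h2 := anti (show m * h' ≤ (b + k) * (m * h') from Nat.le_mul_of_pos_left _ (by omega))
  have e2 : b * ((b + k) * (m * h')) % (b + k) = 0 := by
    rw [mul_left_comm, Nat.mul_mod_right]
  simp only [D, e1, e2, mul_zero, Nat.zero_mod, h.1] at h1 h2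
  refine hn ⟨0, g * h', hpos, by omega, ?_⟩
  rw [h.1]
  omega

lemma base (b h : ℕ) (hh : 0 < h) (hc : Nat.Coprime b (2 * h)) : ∃ A : ℕ → ℕ, A 0 = 0 ∧
    StrictMono A ∧ (∀ q, q + 2 ≤ 2 * h → A (q + b) ≤ A q + 2 * b) ∧ ∀ q q', A q' ≠ A q + 2 * h := by
  obtain ⟨u, -, hu⟩ := Nat.exists_mul_mod_eq_gcd (n := b) (k := 2 * h) (by rw [hc]; omega)
  rw [hc] at hu
  let J : ℕ → ℕ := fun q => (q + 1) * u % (2 * h)
  have j0 : ∀ q, J q < 2 * h := fun q => Nat.mod_lt _ (by omega)
  have j1 : ∀ q, J (q + b) = (J q + 1) % (2 * h) := fun q => by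
    simp only [J]
    rw [add_right_comm, add_mul (q + 1), Nat.add_mod, hu]
  have uo : u % 2 = 1 := by
    have : b * u % (2 * h) % 2 = b * u % 2 := Nat.mod_mod_of_dvd _ (Dvd.intro _ rfl)
    rw [hu, Nat.mul_mod] at this
    rcases Nat.mod_two_eq_zero_or_one u with h0 | h0
    · simp [h0] at this
    · exact h0
  have j2 : ∀ q, J (q + h) = (J q + h) % (2 * h) := fun q => by
    simp only [J]
    obtain ⟨w, rfl⟩ : ∃ w, u = 2 * w + 1 := ⟨u / 2, by omega⟩
    rw [Nat.mod_add_mod, show (q + h + 1) * (2 * w + 1) =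
      (q + 1) * (2 * w + 1) + h + 2 * h * w by ring, Nat.add_mul_mod_self_left]
  have j3 : ∀ q, q + 2 ≤ 2 * h → J q ≠ 0 := fun q hq h0 => by
    have h1 : 2 * h ∣ (q + 1) * (b * u) := by
      rw [mul_left_comm]; exact (Nat.dvd_of_mod_eq_zero h0).mul_left b
    have h2 := Nat.mod_eq_zero_of_dvd h1
    rw [Nat.mul_mod, hu, mul_one, Nat.mod_mod, Nat.mod_eq_of_lt (by omega)] at h2
    omega
  have md : ∀ x, x < 2 * (2 * h) → (x < 2 * h ∧ x % (2 * h) = x) ∨
      (2 * h ≤ x ∧ x % (2 * h) = x - 2 * h) := fun x hx => by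
    rcases lt_or_ge x (2 * h) with h1 | h1
    · exact Or.inl ⟨h1, Nat.mod_eq_of_lt h1⟩
    · exact Or.inr ⟨h1, by rw [Nat.mod_eq_sub_mod h1, Nat.mod_eq_of_lt (by omega)]⟩
  let ε : ℕ → ℕ := fun q => if 1 ≤ J q ∧ J q ≤ h then 1 else 0
  have sp : ∀ q, (1 ≤ J q ∧ J q ≤ h ∧ ε q = 1) ∨ ((J q = 0 ∨ h < J q) ∧ ε q = 0) := fun q => by
    simp only [ε]; split_ifs <;> omega
  refine ⟨fun q => 2 * q + ε q - ε 0, by simp, strictMono_nat_of_lt_succ fun q => ?_,
    fun q hq => ?_, fun q q' e => ?_⟩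
  · have := sp q; have := sp (q + 1); have := sp 0
    rcases q with _ | q
    · simp only [zero_add] at *; omega
    · omega
  · have := sp q; have := sp (q + b); have := j1 q; have := j0 q; have := j3 q hq
    have := md (J q + 1) (by omega)
    simp only
    omega
  · have e0 : ∀ q, ε 0 ≤ 2 * q + ε q := fun q => by
      have := sp 0
      rcases q with _ | q <;> omega
    have := e0 q; have := e0 q'
    have l1 : ε q ≤ 1 := by have := sp q; omega
    have l2 : ε q' ≤ 1 := by have := sp q'; omega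
    simp only at e
    obtain rfl : q' = q + h := by omega
    have := sp q; have := sp (q + h); have := j2 q; have := j0 q
    have := md (J q + h) (by omega)
    omega

lemma lower (g b h : ℕ) (hg : 0 < g) (hh : 0 < h) (hc : Nat.Coprime b (2 * h)) (n : ℕ)
    (hn : n + g < g * b + g * (2 * h)) :
    ∃ a, Adm (g * b) (2 * (g * b)) n a ∧ ¬ Hits (g * (2 * h)) n a := by
  obtain ⟨A, h0, h1, h2, h3⟩ := base b h hh hc
  refine ⟨fun t => g * A (t / g) + t % g, ⟨by simp [h0], fun t _ => ?_, fun t ht => ?_⟩, ?_⟩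
  · have e1 := Nat.div_add_mod t g
    have e2 := Nat.div_add_mod (t + 1) g
    have e3 := Nat.mod_lt t hg
    simp only
    rcases (Nat.div_le_div_right (c := g) (Nat.le_add_right t 1)).eq_or_lt with e | e
    · rw [← e] at e2 ⊢; omega
    · have := Nat.mul_le_mul_left g (Nat.succ_le_of_lt (h1 e))
      rw [Nat.mul_succ] at this
      omega
  · simp only [Nat.add_mul_div_left _ _ hg, Nat.add_mul_mod_self_left]
    have e1 := Nat.div_add_mod t g
    have : t / g + 1 < 2 * h := by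
      refine lt_of_mul_lt_mul_left (a := g) ?_ (Nat.zero_le _)
      rw [mul_add]; omega
    have := Nat.mul_le_mul_left g (h2 (t / g) this)
    rw [mul_add, mul_left_comm] at this
    omega
  · rintro ⟨i, j, -, -, e⟩
    have e1 := congrArg (· % g) e
    simp only [Nat.mul_add_mod, Nat.add_mul_mod_self_left, Nat.mod_mod] at e1
    refine h3 (i / g) (j / g) (Nat.eq_of_mul_eq_mul_left hg ?_)
    simp only at e
    rw [mul_add]; omega

theorem result (b k : ℕ) (hb : 0 < b) (hk : 0 < k) (hv : padicValNat 2 b < padicValNat 2 k) :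
    N b (2 * b) k = (b + k - Nat.gcd b k : ℕ) := by
  obtain ⟨g, b', k', hg, hc, rfl, rfl⟩ := Nat.exists_coprime' (Nat.gcd_pos_of_pos_left k hb)
  have hb' : b' ≠ 0 := by rintro rfl; simp at hb
  have hk' : k' ≠ 0 := by rintro rfl; simp at hk
  rw [padicValNat.mul hb' hg.ne', padicValNat.mul hk' hg.ne'] at hv
  obtain ⟨h, rfl⟩ : 2 ∣ k' := dvd_of_one_le_padicValNat (by omega)
  have eg : Nat.gcd (b' * g) (2 * h * g) = g := by rw [Nat.gcd_mul_right, hc, one_mul]
  have hle : g ≤ b' * g := Nat.le_mul_of_pos_left g (by omega)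
  apply le_antisymm
  · exact iInf₂_le _ ⟨by omega, upper hb hk (by rw [eg]; exact ⟨h, by ring⟩)⟩
  · refine le_iInf₂ fun n hn => Nat.cast_le.2 ?_
    by_contra hlt
    obtain ⟨a, h1, h2⟩ := lower g b' h hg (by omega) hc n (by
      rw [mul_comm g, mul_comm g]; omega)
    rw [mul_comm g b'] at h1
    rw [mul_comm g] at h2
    exact h2 (hn.2 a h1)

end Pool.Agent.Results.MP_25dd1e_co.DoubleCase
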